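import Pool.Agent.Y951.MW.Many2

/-!
# Montgomery's bound at all translates by `b/q`, `b ≠ 0`, for almost all primes `q`
-/

set_option autoImplicit false

namespace Pool.Agent.Results.MP_3b0be2_nt.AlmostAllPrimeModuli

open Pool.Agent.Y951.MW

/-- Pairs `(q, f)`: `q` is a prime in `(Q, 2Q]`, `f = a_2 x^2 + … + a_k x^k ≠ 0` with integers `0 ≤ a_i < q` (so `f`
runs over the classes of the nonlinear polynomials of degree at most `k` modulo `q`, up to linear polynomials).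
`c` is any complex sequence with `|c n| ≤ 1`.

**(1)** Let `2 ≤ k ≤ Q` and `V > 0` with `2N(k-1)²(2N/√Q + 2Q(1 + 2 log(2Q))) ≤ V²`. At most `2N²/V²` pairs
`(q, f)` in total (all primes `q ∈ (Q, 2Q]` together) admit a real `ξ` and `u, v` with `v ≤ N` and
`|∑_{u<n≤v} c n e(f(n)/q + ξ n)| ≥ V`.

**(2)** Let `k ≥ 2`, `0 ≤ η ≤ 1/4`, `ε > 0`. For `N ≥ N₀(k, η, ε)` and `(2Q)^(1+2η) ≤ N`, at most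
`2 (2Q)^(2η) N^(-2ε)` pairs `(q, f)` in total admit `ξ, u, v` as before with
`|∑_{u<n≤v} c n e(f(n)/q + ξ n)| > N^(1+ε) q^(-η)`.

**(3)** Let `k ≥ 4`, `ε > 0`. For `N ≥ N₀(k, ε)`, `(2Q)^(1+2/k) ≤ N` and every real `t`, for all primes
`q ∈ (Q, 2Q]` with at most `2 (2Q)^(2/k) N^(-2ε)` exceptions, the inequality of `H_k(1/k)` (with this `q` and
constant `1`) holds at `t + b/q` for ALL `1 ≤ b < q` and all real `ξ`. -/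
theorem result :
    (∀ k : ℕ, 2 ≤ k → ∀ Q : ℕ, k ≤ Q → ∀ N : ℕ, ∀ c : ℕ → ℂ, (∀ n, ‖c n‖ ≤ 1) → ∀ V : ℝ, 0 < V →
      2 * (N : ℝ) * (((k : ℝ) - 1) ^ 2 * (2 * (N : ℝ) / Real.sqrt (Q : ℝ) +
        2 * (Q : ℝ) * (1 + 2 * Real.log (2 * (Q : ℝ))))) ≤ V ^ 2 →
      ∀ S : Finset (ℕ × Polynomial ℤ),
      (∀ s ∈ S, s.1.Prime ∧ Q < s.1 ∧ s.1 ≤ 2 * Q ∧ s.2 ≠ 0 ∧ s.2.natDegree ≤ k ∧
        s.2.coeff 0 = 0 ∧ s.2.coeff 1 = 0 ∧ ∀ i, 0 ≤ s.2.coeff i ∧ s.2.coeff i < s.1) →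
      (∀ s ∈ S, ∃ (ξ : ℝ) (u v : ℕ), v ≤ N ∧
        V ≤ ‖∑ n ∈ Finset.Ioc u v, c n * Complex.exp (2 * (Real.pi : ℂ) * Complex.I *
          ((((s.2.eval (n : ℤ) : ℤ) : ℝ) / (s.1 : ℝ) + ξ * (n : ℝ) : ℝ) : ℂ))‖) →
      (S.card : ℝ) ≤ 2 * (N : ℝ) ^ 2 / V ^ 2) ∧
    (∀ k : ℕ, 2 ≤ k → ∀ η : ℝ, 0 ≤ η → η ≤ 1 / 4 → ∀ ε : ℝ, 0 < ε → ∃ N₀ : ℕ, ∀ N : ℕ, N₀ ≤ N →
      ∀ Q : ℕ, (2 * (Q : ℝ)) ^ (1 + 2 * η) ≤ (N : ℝ) → ∀ c : ℕ → ℂ, (∀ n, ‖c n‖ ≤ 1) →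
      ∀ S : Finset (ℕ × Polynomial ℤ),
      (∀ s ∈ S, s.1.Prime ∧ Q < s.1 ∧ s.1 ≤ 2 * Q ∧ s.2 ≠ 0 ∧ s.2.natDegree ≤ k ∧
        s.2.coeff 0 = 0 ∧ s.2.coeff 1 = 0 ∧ ∀ i, 0 ≤ s.2.coeff i ∧ s.2.coeff i < s.1) →
      (∀ s ∈ S, ∃ (ξ : ℝ) (u v : ℕ), v ≤ N ∧ (N : ℝ) ^ (1 + ε) / (s.1 : ℝ) ^ η <
        ‖∑ n ∈ Finset.Ioc u v, c n * Complex.exp (2 * (Real.pi : ℂ) * Complex.I *
          ((((s.2.eval (n : ℤ) : ℤ) : ℝ) / (s.1 : ℝ) + ξ * (n : ℝ) : ℝ) : ℂ))‖) →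
      (S.card : ℝ) ≤ 2 * (2 * (Q : ℝ)) ^ (2 * η) / (N : ℝ) ^ (2 * ε)) ∧
    (∀ k : ℕ, 4 ≤ k → ∀ ε : ℝ, 0 < ε → ∃ N₀ : ℕ, ∀ N : ℕ, N₀ ≤ N → ∀ Q : ℕ,
      (2 * (Q : ℝ)) ^ (1 + 2 / (k : ℝ)) ≤ (N : ℝ) → ∀ t : ℝ,
      (({q : ℕ | q.Prime ∧ Q < q ∧ q ≤ 2 * Q ∧ ∃ b : ℕ, 1 ≤ b ∧ b < q ∧ ∃ ξ : ℝ,
        (N : ℝ) ^ (1 + ε) * (1 / (q : ℝ) + 1 / (N : ℝ) + (q : ℝ) / (N : ℝ) ^ k) ^ (1 / (k : ℝ)) <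
        ‖∑ n ∈ Finset.Icc 1 N, Complex.exp (2 * (Real.pi : ℂ) * Complex.I *
          (((t + (b : ℝ) / (q : ℝ)) * (n : ℝ) ^ k + ξ * (n : ℝ) : ℝ) : ℂ))‖}.ncard : ℕ) : ℝ) ≤
        2 * (2 * (Q : ℝ)) ^ (2 / (k : ℝ)) / (N : ℝ) ^ (2 * ε)) := by
  refine ⟨?_, ?_, ?_⟩
  · intro k hk Q hkQ N c hc V hV hV2 S hS hL
    simp only [← e_eq] at hL
    exact many hk hkQ c hc hV hV2 S hS hL
  · intro k hk η hη0 hη ε hε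
    obtain ⟨N₀, h⟩ := many_eta hk hη0 hη hε
    refine ⟨N₀, fun N hN Q hQ c hc S hS hL => ?_⟩
    simp only [← e_eq] at hL
    exact h N hN Q hQ c hc S hS hL
  · intro k hk ε hε
    obtain ⟨N₀, h⟩ := primes_hk hk hε
    refine ⟨N₀, fun N hN Q hQ t => ?_⟩
    simp only [← e_eq]
    exact h N hN Q hQ t

end Pool.Agent.Results.MP_3b0be2_nt.AlmostAllPrimeModuli
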