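import Pool.Agent.Y980.MW.DimT

/-!
# Montgomery's hypothesis for Weyl sums outside a small set of leading coefficients, uniformly in the linear coefficient

The system `∑ x_i = ∑ y_i`, `∑ x_i^k = ∑ y_i^k` (`1 ≤ x_i, y_i ≤ N`) has at most `N^(2s-m+o(1))` solutions in `2s`
variables for `2s = 2^(m-1) + 2` (`k` odd) and `2s = 2^(m-1) + 4` (`k` even), `3 ≤ m ≤ k+1`: iterated differencing, in
which the linear part disappears after two steps, from the sixth moment for odd `k` (divisors of `S^k - ∑ x_i^k`) and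
from the fourth moment for even `k`. The large values of the supremum over the linear coefficient, local constancy at
scale `N^(-k)` and a covering argument then bound the Hausdorff dimension of the exceptional set.
-/

set_option autoImplicit false

namespace Pool.Agent.Results.MP_3b0be2_nt.ExceptionalLeading

/-- For `k ≥ 3`, `3 ≤ m ≤ k + 1` and `0 ≤ η ≤ 1` let `c = 2` if `k` is odd and `c = 4` if `k` is even. For every
`ε > 0` the set of real `t` such that for no constant `C` the inequality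
`|∑_{n ≤ N} e(t n^k + ξ n)| ≤ C N^(1+ε) (1/q + 1/N + q/N^k)^η` holds for all `N ≥ 2`, all real `ξ` and all coprime
`1 ≤ a < q ≤ N` with `|t - a/q| ≤ 1/q^2` has Hausdorff dimension at most
`1 - (m - 1 - (2^(m-1) + c)(η - ε))/k`; and the set of `t` for which this happens for some `ε > 0` has dimension at
most `1 - (m - 1 - (2^(m-1) + c) η)/k`. -/
theorem result : ∀ k : ℕ, 3 ≤ k → ∀ m : ℕ, 3 ≤ m → m ≤ k + 1 → ∀ η : ℝ, 0 ≤ η → η ≤ 1 →
    (∀ ε : ℝ, 0 < ε →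
      dimH {t : ℝ | ¬ ∃ C : ℝ, ∀ N : ℕ, 2 ≤ N → ∀ ξ : ℝ, ∀ a q : ℕ, 1 ≤ a → a < q → q ≤ N → Nat.Coprime a q →
        |t - (a : ℝ) / (q : ℝ)| ≤ 1 / (q : ℝ) ^ 2 →
        ‖∑ n ∈ Finset.Icc 1 N,
            Complex.exp (2 * (Real.pi : ℂ) * Complex.I * (((t * (n : ℝ) ^ k + ξ * (n : ℝ)) : ℝ) : ℂ))‖ ≤
          C * (N : ℝ) ^ (1 + ε) *
            (1 / (q : ℝ) + 1 / (N : ℝ) + (q : ℝ) / (N : ℝ) ^ k) ^ η} ≤
        ENNReal.ofReal (1 - ((m : ℝ) - 1 - (2 ^ (m - 1) + (if Odd k then 2 else 4)) * (η - ε)) / k)) ∧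
    dimH {t : ℝ | ∃ ε : ℝ, 0 < ε ∧ ¬ ∃ C : ℝ, ∀ N : ℕ, 2 ≤ N → ∀ ξ : ℝ, ∀ a q : ℕ, 1 ≤ a → a < q → q ≤ N →
        Nat.Coprime a q → |t - (a : ℝ) / (q : ℝ)| ≤ 1 / (q : ℝ) ^ 2 →
        ‖∑ n ∈ Finset.Icc 1 N,
            Complex.exp (2 * (Real.pi : ℂ) * Complex.I * (((t * (n : ℝ) ^ k + ξ * (n : ℝ)) : ℝ) : ℂ))‖ ≤
          C * (N : ℝ) ^ (1 + ε) *
            (1 / (q : ℝ) + 1 / (N : ℝ) + (q : ℝ) / (N : ℝ) ^ k) ^ η} ≤
        ENNReal.ofReal (1 - ((m : ℝ) - 1 - (2 ^ (m - 1) + (if Odd k then 2 else 4)) * η) / k) := by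
  intro k hk m hm hmk η hη hη1
  refine ⟨fun ε hε => ?_, ?_⟩
  · exact Pool.Agent.Y980.MW.dim_t k hk m hm hmk η ε hη hη1 hε
  · exact Pool.Agent.Y980.MW.dim_all k hk m hm hmk η hη hη1

end Pool.Agent.Results.MP_3b0be2_nt.ExceptionalLeading
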