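import Pool.Agent.Y951.MW.Final

/-!
# Montgomery's bound at the translates by `b/q`, `q` prime: large values over all lower-order terms
-/

set_option autoImplicit false

namespace Pool.Agent.Results.MP_3b0be2_nt.LargeValuesAtTranslates

open Pool.Agent.Y951.MW

/-- **(1)** Let `k ≥ 2`, `q` a prime not dividing `k`, `N ≥ 0`, `c` any complex sequence with `|c n| ≤ 1` and `V > 0`
with `2N(k-1)(√q/q)(2N + q(1 + log q)) ≤ V²`. Then for all residues `b` modulo `q` with at most `2N²/V²`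
exceptions, `|∑_{u<n≤v} c n e((b n^k + h(n))/q + ξ n)| < V` for all integer polynomials `h` of degree less
than `k`, all real `ξ` and all `u, v` with `v ≤ N`.

**(2)** Let `k ≥ 2`, `0 ≤ η ≤ 1/4` and `ε > 0`. For `N ≥ N₀(k, η, ε)`, every prime `q ≤ N^(2-4η)` and every
sequence `c` as before, for all residues `b` modulo `q` with at most `2 min(q,N)^(2η) N^(-2ε)` exceptions,
`|∑_{u<n≤v} c n e((b n^k + h(n))/q + ξ n)| ≤ N^(1+ε) max(1/q,1/N)^η` for all `h`, `ξ`, `u`, `v` as before. -/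
theorem result :
    (∀ k : ℕ, 2 ≤ k → ∀ q : ℕ, q.Prime → ¬ q ∣ k → ∀ N : ℕ, ∀ c : ℕ → ℂ, (∀ n, ‖c n‖ ≤ 1) →
      ∀ V : ℝ, 0 < V →
      2 * (N : ℝ) * (((k : ℝ) - 1) * (Real.sqrt (q : ℝ) / (q : ℝ)) *
        (2 * (N : ℝ) + (q : ℝ) * (1 + Real.log (q : ℝ)))) ≤ V ^ 2 →
      (({b : ℕ | b < q ∧ ∃ h : Polynomial ℤ, h.natDegree < k ∧ ∃ (ξ : ℝ) (u v : ℕ), v ≤ N ∧
        V ≤ ‖∑ n ∈ Finset.Ioc u v, c n * Complex.exp (2 * (Real.pi : ℂ) * Complex.I *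
          ((((b : ℝ) * (n : ℝ) ^ k + ((h.eval (n : ℤ) : ℤ) : ℝ)) / (q : ℝ) + ξ * (n : ℝ) : ℝ) : ℂ))‖}.ncard
          : ℕ) : ℝ) ≤ 2 * (N : ℝ) ^ 2 / V ^ 2) ∧
    (∀ k : ℕ, 2 ≤ k → ∀ η : ℝ, 0 ≤ η → η ≤ 1 / 4 → ∀ ε : ℝ, 0 < ε → ∃ N₀ : ℕ, ∀ N : ℕ, N₀ ≤ N →
      ∀ q : ℕ, q.Prime → (q : ℝ) ≤ (N : ℝ) ^ (2 - 4 * η) → ∀ c : ℕ → ℂ, (∀ n, ‖c n‖ ≤ 1) →
      (({b : ℕ | b < q ∧ ∃ h : Polynomial ℤ, h.natDegree < k ∧ ∃ (ξ : ℝ) (u v : ℕ), v ≤ N ∧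
        (N : ℝ) ^ (1 + ε) * (max (1 / (q : ℝ)) (1 / (N : ℝ))) ^ η <
          ‖∑ n ∈ Finset.Ioc u v, c n * Complex.exp (2 * (Real.pi : ℂ) * Complex.I *
            ((((b : ℝ) * (n : ℝ) ^ k + ((h.eval (n : ℤ) : ℤ) : ℝ)) / (q : ℝ) + ξ * (n : ℝ) : ℝ) : ℂ))‖}.ncard
          : ℕ) : ℝ) ≤ 2 * (min (q : ℝ) (N : ℝ)) ^ (2 * η) / (N : ℝ) ^ (2 * ε)) := by
  refine ⟨?_, ?_⟩
  · intro k hk q hq hqk N c hc V hV hV2
    haveI : Fact q.Prime := ⟨hq⟩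
    have h1 := large_values (p := q) hk hqk (N := N) c hc hV (by
      refine le_trans (le_of_eq ?_) hV2
      unfold Gam
      rw [Nat.cast_sub (by omega), Nat.cast_one]
      ring)
    simp only [e_eq] at h1
    exact h1
  · intro k hk η hη0 hη ε hε
    obtain ⟨N₀, h⟩ := montgomery hk hη0 hη hε
    refine ⟨N₀, fun N hN q hq hqN c hc => ?_⟩
    have h1 := h N hN q hq hqN c hc
    simp only [e_eq] at h1
    exact h1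

end Pool.Agent.Results.MP_3b0be2_nt.LargeValuesAtTranslates
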